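import Pool.Agent.R942.WD.Defs

/-!
# The `(φ, N, G_K)`-modules attached to smooth proper varieties over a `p`-adic field

`K` is a complete discretely valued field of characteristic zero with finite residue field with
`q = p ^ h` elements, `W` is its Weil group and `deg : W → ℤ` is the homomorphism with `deg g = n` if
`g` acts on the algebraic closure of the residue field as the `n`-th power of the geometric
Frobenius, so that `v(g) = h deg(g)`. The field `P₀` is the fraction field of the Witt vectors of this
algebraic closure, with its Frobenius `σ` and the action `τ` of `W`, and `Ω` is an algebraic closure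
of `P₀`.
-/

set_option autoImplicit false

namespace Pool.Agent.R942.WQ

open Module Pool.Agent.Y143 Pool.Agent.R942.WS Pool.Agent.R942.WD

universe u

/-- The element `g` of the Weil group acts on `P₀` as the power `- v(g)` of the Frobenius `σ`. -/
def IsWeilAction {P₀ : Type u} [Field P₀] {W : Type} [Group W] (deg : W →* Multiplicative ℤ)
    (h : ℕ) (σ : RingAut P₀) (τ : W →* RingAut P₀) : Prop :=
  ∀ g, τ g * σ ^ ((h : ℤ) * Multiplicative.toAdd (deg g)) = 1

section Module

variable {P₀ : Type u} [Field P₀] {W : Type} [Group W] {D : Type u} [AddCommGroup D] [Module P₀ D]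

/-- `D` is a `(φ, N)`-module over `P₀` with a semilinear action `ρ` of `W`: the Frobenius `φ` is
bijective, additive and `σ`-semilinear, the nilpotent operator `N` is linear with `N φ = p φ N`, and the action
commutes with `φ` and `N`. -/
structure IsPhiNModule (p : ℕ) (σ : RingAut P₀) (τ : W →* RingAut P₀) (ρ : W →* Equiv.Perm D)
    (φ : Equiv.Perm D) (N : Module.End P₀ D) : Prop where
  act_add : ∀ g x y, ρ g (x + y) = ρ g x + ρ g y
  frob_add : ∀ x y, φ (x + y) = φ x + φ y
  act_smul : ∀ g (c : P₀) x, ρ g (c • x) = τ g c • ρ g x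
  frob_smul : ∀ (c : P₀) x, φ (c • x) = σ c • φ x
  act_frob : ∀ g x, ρ g (φ x) = φ (ρ g x)
  N_act : ∀ g x, N (ρ g x) = ρ g (N x)
  N_frob : ∀ x, N (φ x) = (p : P₀) • φ (N x)
  nilpotent : ∃ r, N ^ r = 0

/-- `A` is the `P₀`-linear action of the Weil group: `g` acts as `g φ ^ v(g)`. -/
def IsLinearAction (deg : W →* Multiplicative ℤ) (h : ℕ) (ρ : W →* Equiv.Perm D) (φ : Equiv.Perm D)
    (A : W → Module.End P₀ D) : Prop :=
  ∀ g x, A g x = (ρ g * φ ^ ((h : ℤ) * Multiplicative.toAdd (deg g))) x

end Module

/-- The spaces `D m = H^m_{pst, p}(X)` over `P₀` of a smooth proper variety `X` over `K`, purely of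
dimension `n`, with the action `ρ` of the Weil group, the Frobenius `φ` and the monodromy operator
`N`. -/
structure PstVariety (P₀ : Type u) [Field P₀] (W : Type) [Group W] where
  D : ℕ → Type u
  [addCommGroup : ∀ m, AddCommGroup (D m)]
  [module : ∀ m, Module P₀ (D m)]
  ρ : ∀ m, W →* Equiv.Perm (D m)
  φ : ∀ m, Equiv.Perm (D m)
  N : ∀ m, Module.End P₀ (D m)

attribute [instance] PstVariety.addCommGroup PstVariety.module

variable {P₀ : Type u} [Field P₀] {W : Type} [Group W]

/-- The spaces `D m` are `(φ, N)`-modules with semilinear action of the Weil group, and `A` is the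
linear action. -/
structure PstVariety.IsPst (X : PstVariety P₀ W) (p h : ℕ) (deg : W →* Multiplicative ℤ)
    (σ : RingAut P₀) (τ : W →* RingAut P₀) (A : ∀ m, W → Module.End P₀ (X.D m)) : Prop where
  weil : IsWeilAction deg h σ τ
  module : ∀ m, IsPhiNModule p σ τ (X.ρ m) (X.φ m) (X.N m)
  linear : ∀ m, IsLinearAction deg h (X.ρ m) (X.φ m) (A m)

variable (Ω : Type u) [Field Ω] [Algebra P₀ Ω]

/-- The space `D m ⊗ Ω`. -/
abbrev PstVariety.V (X : PstVariety P₀ W) (m : ℕ) : Type u := TensorProduct P₀ Ω (X.D m)

/-- The monodromy operator on `D m ⊗ Ω`. -/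
noncomputable def PstVariety.NV (X : PstVariety P₀ W) (m : ℕ) : Module.End Ω (X.V Ω m) :=
  (X.N m).baseChange Ω

/-- The linear action of the Weil group on `D m ⊗ Ω`. -/
noncomputable def PstVariety.actV {X : PstVariety P₀ W} (A : ∀ m, W → Module.End P₀ (X.D m))
    (m : ℕ) (g : W) : Module.End Ω (X.V Ω m) := (A m g).baseChange Ω

/-- The conclusion of the monodromy-weight conjecture for the graded pieces `gr^N_s` with
`|s| ≥ m - c` of `H^m_{pst, p}(X)` and of `H^(2 n - m)_{pst, p}(X)`, for all `m ≤ n`: the eigenvalues
of all `g` in the Weil group on `gr^N_s` of `H^m_{pst, p}(X)` are algebraic numbers whose conjugates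
have absolute value `q ^ ((m + s) deg(g) / 2) = p ^ ((m + s) v(g) / 2)`, and similarly for
`2 n - m`. -/
def Outer [CharZero Ω] (X : PstVariety P₀ W) (A : ∀ m, W → Module.End P₀ (X.D m))
    (q n : ℕ) (deg : W → Multiplicative ℤ) (c : ℕ) : Prop :=
  ∀ m ≤ n, ∀ s : ℤ, (m : ℤ) - c ≤ |s| →
    ∀ k : ℕ, k = m ∨ k = 2 * n - m →
      HasRightWeights q deg (PstVariety.actV Ω A k) (X.NV Ω k) k s

/-- An alteration `X' → X` with a projective strictly semistable model of `X'` over the ring of
integers of a finite extension `K'` of `K`: the model `model` of `X'`, given by the crystalline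
cohomology of the strata (with the classes of divisors on the strata); the spaces `D m ⊗ Ω` are direct
summands of those of `X'` (by the pull-back and the push-forward divided by the degree), and the
inertia group of `K'` acts trivially on `D m`. -/
structure PstAlteration [CharZero Ω] (X : PstVariety P₀ W) (A : ∀ m, W → Module.End P₀ (X.D m))
    (deg : W →* Multiplicative ℤ) (n q : ℕ) where
  W' : Subgroup W
  f : ℕ
  φ : W
  extension : IsExtension deg W' f φ
  Γ : Type
  model : Degeneration.{u, u} Ω Γ n (q ^ f)
  classes : DivisorClasses model.toSpecialFibre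
  e : ℕ
  summand : ∀ m, IsSummandOf (PstVariety.actV Ω A m φ) (X.NV Ω m) model m e
  inertia : ∀ m, ∀ g ∈ W', deg g = 1 → ∀ x, X.ρ m g x = x

end Pool.Agent.R942.WQ
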