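import Pool.Agent.R942.WQ.Defs
import Pool.Agent.R942.WD.Main

/-!
# The p-adic monodromy-weight conjecture for the outer graded pieces
-/

set_option autoImplicit false

namespace Pool.Agent.R942.WQ

open Module Pool.Agent.Y143 Pool.Agent.R942.WS Pool.Agent.R942.WD

universe u

section Linear

variable {P₀ : Type u} [Field P₀] {W : Type} [Group W] {D : Type u} [AddCommGroup D] [Module P₀ D]
  {deg : W →* Multiplicative ℤ} {p h : ℕ} {σ : RingAut P₀} {τ : W →* RingAut P₀}
  {ρ : W →* Equiv.Perm D} {φ : Equiv.Perm D} {N : Module.End P₀ D} {A : W → Module.End P₀ D}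

lemma commute_act (hD : IsPhiNModule p σ τ ρ φ N) (g : W) : Commute (ρ g) φ := by
  ext x
  exact hD.act_frob g x

lemma lin_mul (hD : IsPhiNModule p σ τ ρ φ N) (hA : IsLinearAction deg h ρ φ A) (g g' : W) :
    A (g * g') = A g * A g' := by
  ext x
  rw [Module.End.mul_apply, hA, hA, hA, ← Equiv.Perm.mul_apply]
  congr 1
  have h1 : Commute (ρ g') (φ ^ ((h : ℤ) * Multiplicative.toAdd (deg g))) :=
    (commute_act hD g').zpow_right _
  rw [map_mul, map_mul, toAdd_mul, mul_add, zpow_add]
  calc ρ g * ρ g' * (φ ^ ((h : ℤ) * Multiplicative.toAdd (deg g)) *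
        φ ^ ((h : ℤ) * Multiplicative.toAdd (deg g')))
      = ρ g * (ρ g' * φ ^ ((h : ℤ) * Multiplicative.toAdd (deg g))) *
        φ ^ ((h : ℤ) * Multiplicative.toAdd (deg g')) := by simp only [mul_assoc]
    _ = ρ g * (φ ^ ((h : ℤ) * Multiplicative.toAdd (deg g)) * ρ g') *
        φ ^ ((h : ℤ) * Multiplicative.toAdd (deg g')) := by rw [h1.eq]
    _ = _ := by simp only [mul_assoc]

lemma lin_one (hA : IsLinearAction deg h ρ φ A) : A 1 = 1 := by
  ext x
  rw [hA, map_one, map_one, toAdd_one, mul_zero, zpow_zero, one_mul]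
  rfl

lemma N_pow (hp : (p : P₀) ≠ 0) (hD : IsPhiNModule p σ τ ρ φ N) (k : ℤ) (x : D) :
    N ((φ ^ k) x) = (p : P₀) ^ k • (φ ^ k) (N x) := by
  have hσ : ∀ k : ℤ, (σ ^ k) (p : P₀) = p := fun k => map_natCast _ p
  have hs : ∀ (k : ℕ) (c : P₀) (x : D), (φ ^ k) (c • x) = (σ ^ k) c • (φ ^ k) x := by
    intro k
    induction k with
    | zero => intro c x; rfl
    | succ k ih =>
      intro c x
      rw [pow_succ', Equiv.Perm.mul_apply, ih, hD.frob_smul, pow_succ', Equiv.Perm.mul_apply]
      rfl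
  have hnat : ∀ (k : ℕ) (x : D), N ((φ ^ k) x) = (p : P₀) ^ k • (φ ^ k) (N x) := by
    intro k
    induction k with
    | zero => intro x; simp
    | succ k ih =>
      intro x
      rw [pow_succ', Equiv.Perm.mul_apply, hD.N_frob, ih, hD.frob_smul, smul_smul, map_pow,
        map_natCast, pow_succ', Equiv.Perm.mul_apply]
  rcases le_total 0 k with hk | hk
  · obtain ⟨m, rfl⟩ := Int.eq_ofNat_of_zero_le hk
    simpa using hnat m x
  · obtain ⟨m, hm⟩ := Int.eq_ofNat_of_zero_le (show 0 ≤ -k by omega)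
    obtain rfl : k = -m := by omega
    -- apply `φ ^ m`
    have h1 := hnat m ((φ ^ (-(m : ℤ))) x)
    have h2 : (φ ^ m) ((φ ^ (-(m : ℤ))) x) = x := by
      rw [← Equiv.Perm.mul_apply, ← zpow_natCast, ← zpow_add, add_neg_cancel, zpow_zero]
      rfl
    rw [h2] at h1
    have h3 := congrArg (φ ^ (-(m : ℤ))) h1
    have h4 : (φ ^ (-(m : ℤ))) ((p : P₀) ^ m • (φ ^ m) (N ((φ ^ (-(m : ℤ))) x))) =
        (p : P₀) ^ m • N ((φ ^ (-(m : ℤ))) x) := by
      have h5 : (p : P₀) ^ m • (φ ^ m) (N ((φ ^ (-(m : ℤ))) x)) =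
          (φ ^ m) ((p : P₀) ^ m • N ((φ ^ (-(m : ℤ))) x)) := by
        rw [hs, map_pow, map_natCast]
      rw [h5, ← Equiv.Perm.mul_apply, ← zpow_natCast, ← zpow_add, neg_add_cancel, zpow_zero]
      rfl
    rw [h4] at h3
    have e1 : (p : P₀) ^ (-(m : ℤ)) * (p : P₀) ^ m = 1 := by
      rw [zpow_neg, zpow_natCast, inv_mul_cancel₀ (pow_ne_zero _ hp)]
    rw [h3, smul_smul, e1, one_smul]

lemma N_lin (hp : (p : P₀) ≠ 0) (hD : IsPhiNModule p σ τ ρ φ N)
    (hA : IsLinearAction deg h ρ φ A) (hτ : IsWeilAction deg h σ τ) (g : W) (x : D) :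
    N (A g x) = ((p : P₀) ^ h) ^ (Multiplicative.toAdd (deg g)) • A g (N x) := by
  rw [hA, hA, Equiv.Perm.mul_apply, Equiv.Perm.mul_apply, hD.N_act, N_pow hp hD, hD.act_smul,
    map_zpow₀, map_natCast, ← zpow_natCast, ← zpow_mul]

end Linear

section Base

variable {P₀ : Type u} [Field P₀] {W : Type} [Group W] (Ω : Type u) [Field Ω] [CharZero Ω]
  [Algebra P₀ Ω] {X : PstVariety P₀ W} {A : ∀ m, W → Module.End P₀ (X.D m)}
  {deg : W →* Multiplicative ℤ} {p h : ℕ} {σ : RingAut P₀} {τ : W →* RingAut P₀}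

/-- The variety over `Ω`. -/
noncomputable def toProper (hp : p ≠ 0) (hX : X.IsPst p h deg σ τ A) (n : ℕ) :
    ProperVariety.{u, u} Ω W deg n (p ^ h) where
  V := X.V Ω
  act m :=
    { toFun := PstVariety.actV Ω A m
      map_one' := by
        unfold PstVariety.actV
        rw [lin_one (hX.linear m)]
        exact LinearMap.baseChange_id
      map_mul' := fun g g' => by
        unfold PstVariety.actV
        rw [lin_mul (hX.module m) (hX.linear m)]
        exact LinearMap.baseChange_comp _ _ }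
  N := X.NV Ω
  monodromy m := by
    have hp0 : (p : P₀) ≠ 0 := by
      intro h0
      have h1 : (algebraMap P₀ Ω) (p : P₀) = 0 := by rw [h0, map_zero]
      rw [map_natCast] at h1
      exact hp (Nat.cast_eq_zero.1 h1)
    constructor
    · obtain ⟨r, hr⟩ := (hX.module m).nilpotent
      refine ⟨r, ?_⟩
      unfold PstVariety.NV
      have h1 : ((X.N m).baseChange Ω) ^ r = ((X.N m) ^ r).baseChange Ω := by
        rw [LinearMap.baseChange_pow]
      rw [h1, hr]
      exact LinearMap.baseChange_zero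
    · intro g x
      show ((X.N m).baseChange Ω) ((A m g).baseChange Ω x) = _
      induction x using TensorProduct.induction_on with
      | zero => simp
      | tmul c x =>
        rw [LinearMap.baseChange_tmul, LinearMap.baseChange_tmul,
          N_lin hp0 (hX.module m) (hX.linear m) hX.weil]
        show _ = ((p ^ h : ℕ) : Ω) ^ _ • ((A m g).baseChange Ω) ((X.N m).baseChange Ω (c ⊗ₜ x))
        rw [LinearMap.baseChange_tmul, LinearMap.baseChange_tmul, TensorProduct.tmul_smul,
          ← algebraMap_smul Ω, map_zpow₀, map_pow, map_natCast]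
        push_cast
        rfl
      | add x y hx hy =>
        rw [map_add, map_add, map_add, map_add, smul_add, hx, hy]

/-- The alteration over `Ω`. -/
noncomputable def toAlteration (hp : p ≠ 0) (hX : X.IsPst p h deg σ τ A) {n : ℕ}
    (B : PstAlteration Ω X A deg n (p ^ h)) : Alteration (toProper Ω hp hX n) where
  W' := B.W'
  f := B.f
  φ := B.φ
  extension := B.extension
  Γ := B.Γ
  model := B.model
  classes := B.classes
  e := B.e
  summand := B.summand
  unipotent m g hg hdeg := by
    obtain ⟨r, hr⟩ := (hX.module m).nilpotent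
    have h1 : A m g = 1 := by
      ext x
      rw [hX.linear m, hdeg, toAdd_one, mul_zero, zpow_zero, mul_one]
      exact B.inertia m g hg hdeg x
    have h2 : (toProper Ω hp hX n).act m g = 1 := by
      show (A m g).baseChange Ω = _
      rw [h1]
      exact LinearMap.baseChange_id
    refine ⟨0, r + 1, ?_, ?_⟩
    · show ((X.N m).baseChange Ω) ^ (r + 1) = 0
      have h1 : ((X.N m).baseChange Ω) ^ (r + 1) = ((X.N m) ^ (r + 1)).baseChange Ω := by
        rw [LinearMap.baseChange_pow]
      rw [h1, pow_succ, hr, zero_mul]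
      exact LinearMap.baseChange_zero
    · rw [h2, Finset.sum_eq_single 0]
      · simp
      · intro i _ hi
        rw [zero_pow hi, zero_mul, zero_smul]
      · intro hi
        exact absurd (Finset.mem_range.2 (Nat.succ_pos r)) hi

theorem pst_rightWeights [IsAlgClosed Ω] (hp : p ≠ 0) (hX : X.IsPst p h deg σ τ A) {n : ℕ}
    (B : PstAlteration Ω X A deg n (p ^ h)) {r : ℕ} (hr : GoodUpTo B.classes r) :
    Outer Ω X A (p ^ h) n deg (r + 1) := by
  intro m hm s hs k hk
  have h1 := rightWeights (toAlteration Ω hp hX B) hr hm (s := s)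
    (by push_cast at hs; linarith)
  rcases hk with rfl | rfl
  · exact h1.1
  · exact h1.2

end Base

end Pool.Agent.R942.WQ
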